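import Pool.Agent.H93.TN.TargetsA

/-!
Board tn, module SEC: kernels of sectors.
-/

set_option autoImplicit false

namespace Pool.Agent.H50.TN

open MeasureTheory Set FourierTransform
open Pool.Agent.H83.LS Pool.Agent.H93.AR Pool.Agent.H54.LS Pool.Agent.H14.LS Pool.Agent.H83.AR
open Pool.Agent.H84.BR Pool.Agent.H84.B2 Pool.Agent.H93.TN
open scoped ENNReal NNReal

/-! ### the linear change of variables -/

/-- `η ↦ Λ (r η + (1 - r) (η.u) u)` -/
noncomputable def DL {n : ℕ} (Lam r : ℝ) (u : EE n) : EE n →ₗ[ℝ] EE n :=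
  (Lam * r) • LinearMap.transvection (((1 - r) / r) • (innerₛₗ ℝ u : EE n →ₗ[ℝ] ℝ)) u

theorem DL_apply {n : ℕ} {Lam r : ℝ} (hr : r ≠ 0) (u x : EE n) :
    DL Lam r u x = Lam • (r • x + ((1 - r) * inner ℝ u x) • u) := by
  have h : DL Lam r u x = (Lam * r) • (x + (((1 - r) / r) * inner ℝ u x) • u) := by
    simp [DL, LinearMap.transvection.apply]
  rw [h, smul_add, smul_add, smul_smul, smul_smul, smul_smul]
  congr 2
  field_simp

theorem DL_det {n : ℕ} (hn : 1 ≤ n) {Lam r : ℝ} (hr : r ≠ 0) {u : EE n} (hu : ‖u‖ = 1) :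
    LinearMap.det (DL Lam r u) = Lam ^ n * r ^ (n - 1) := by
  have hin : inner ℝ u u = 1 := by
    rw [real_inner_self_eq_norm_sq, hu]
    norm_num
  unfold DL
  rw [LinearMap.det_smul, LinearMap.transvection.det]
  have h1 : ((((1 - r) / r) • (innerₛₗ ℝ u : EE n →ₗ[ℝ] ℝ)) u) = (1 - r) / r := by
    simp [hu]
  rw [h1, finrank_euclideanSpace_fin, mul_pow]
  obtain ⟨k, rfl⟩ : ∃ k, n = k + 1 := ⟨n - 1, by omega⟩
  simp only [Nat.add_sub_cancel]
  field_simp
  ring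

theorem DL_integral {n : ℕ} (hn : 1 ≤ n) {Lam r : ℝ} (hL : 0 < Lam) (hr : 0 < r) {u : EE n}
    (hu : ‖u‖ = 1) (g : EE n → ℂ) :
    ∫ ξ, g ξ = ((Lam ^ n * r ^ (n - 1) : ℝ) : ℂ) * ∫ η, g (DL Lam r u η) := by
  have hdet : LinearMap.det (DL Lam r u) = Lam ^ n * r ^ (n - 1) := DL_det hn hr.ne' hu
  have hpos : 0 < Lam ^ n * r ^ (n - 1) := by positivity
  have hne : LinearMap.det (DL Lam r u) ≠ 0 := by
    rw [hdet]
    exact hpos.ne'
  have hemb : MeasurableEmbedding (DL Lam r u) := by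
    have h := (LinearMap.equivOfDetNeZero (DL Lam r u)
      hne).toContinuousLinearEquiv.toHomeomorph.measurableEmbedding
    exact h
  have h1 := hemb.integral_map (μ := volume) g
  rw [Measure.map_linearMap_addHaar_eq_smul_addHaar volume hne, integral_smul_measure, hdet,
    ENNReal.toReal_ofReal (abs_nonneg _), abs_of_pos (inv_pos.2 hpos)] at h1
  rw [← h1, Complex.real_smul, ← mul_assoc, ← Complex.ofReal_mul, mul_inv_cancel₀ hpos.ne',
    Complex.ofReal_one, one_mul]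

/-! ### the symbol in the new coordinates -/

/-- the parameter `r` -/
def pr0 {n : ℕ} (p : Fin (n + 1) → ℝ) : ℝ := p 0

/-- the parameter `u` -/
noncomputable def pu {n : ℕ} (p : Fin (n + 1) → ℝ) : EE n := WithLp.toLp 2 (fun i => p i.succ)

/-- the coordinate `η.u` -/
noncomputable def ss {n : ℕ} (u η : EE n) : ℝ := inner ℝ u η

/-- the modulus -/
noncomputable def mo {n : ℕ} (r : ℝ) (u η : EE n) : ℝ :=
  Real.sqrt (r ^ 2 * ‖η - ss u η • u‖ ^ 2 + ss u η ^ 2)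

/-- the symbol -/
noncomputable def Ps {n : ℕ} (ψ : ℝ → ℝ) (r : ℝ) (u η : EE n) : ℝ :=
  (1 - eta0 (32 * ss u η)) * ψ (mo r u η) *
    eta0 (2 * ‖η - ss u η • u‖ ^ 2 / (mo r u η * (mo r u η + ss u η)))

theorem contDiff_eta0 : ContDiff ℝ (⊤ : ℕ∞) eta0 := by
  unfold eta0
  exact Real.smoothTransition.contDiff.comp (contDiff_const.sub contDiff_id)

theorem contDiff_pu {n : ℕ} : ContDiff ℝ (⊤ : ℕ∞) (pu : (Fin (n + 1) → ℝ) → EE n) := by
  unfold pu
  rw [contDiff_euclidean]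
  intro i
  exact contDiff_apply ℝ ℝ i.succ

theorem contDiff_Ps {n : ℕ} {ψ : ℝ → ℝ} (hψ : ContDiff ℝ (⊤ : ℕ∞) ψ) :
    ContDiff ℝ (⊤ : ℕ∞) (fun q : (Fin (n + 1) → ℝ) × EE n => Ps ψ (pr0 q.1) (pu q.1) q.2) := by
  have hr : ContDiff ℝ (⊤ : ℕ∞) (fun q : (Fin (n + 1) → ℝ) × EE n => pr0 q.1) :=
    (contDiff_apply ℝ ℝ (0 : Fin (n + 1))).comp contDiff_fst
  have hu : ContDiff ℝ (⊤ : ℕ∞) (fun q : (Fin (n + 1) → ℝ) × EE n => pu q.1) :=
    contDiff_pu.comp contDiff_fst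
  have hs : ContDiff ℝ (⊤ : ℕ∞) (fun q : (Fin (n + 1) → ℝ) × EE n => ss (pu q.1) q.2) :=
    hu.inner ℝ contDiff_snd
  have hq : ContDiff ℝ (⊤ : ℕ∞)
      (fun q : (Fin (n + 1) → ℝ) × EE n => ‖q.2 - ss (pu q.1) q.2 • pu q.1‖ ^ 2) :=
    (contDiff_snd.sub (hs.smul hu)).norm_sq ℝ
  have hm : ContDiff ℝ (⊤ : ℕ∞) (fun q : (Fin (n + 1) → ℝ) × EE n =>
      pr0 q.1 ^ 2 * ‖q.2 - ss (pu q.1) q.2 • pu q.1‖ ^ 2 + ss (pu q.1) q.2 ^ 2) :=
    ((hr.pow 2).mul hq).add (hs.pow 2)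
  rw [contDiff_iff_contDiffAt]
  intro q₀
  rcases lt_or_ge (ss (pu q₀.1) q₀.2) (1 / 32) with h | h
  · have hev : (fun q : (Fin (n + 1) → ℝ) × EE n => Ps ψ (pr0 q.1) (pu q.1) q.2) =ᶠ[nhds q₀]
        fun _ => (0 : ℝ) := by
      have h1 : ∀ᶠ q in nhds q₀, ss (pu q.1) q.2 < 1 / 32 :=
        hs.continuous.continuousAt.eventually_lt continuousAt_const h
      filter_upwards [h1] with q hq1
      have h2 : eta0 (32 * ss (pu q.1) q.2) = 1 := by
        apply Real.smoothTransition.one_of_one_le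
        linarith
      simp only [Ps, h2, sub_self, zero_mul]
    exact contDiffAt_const.congr_of_eventuallyEq hev
  · have hs0 : 0 < ss (pu q₀.1) q₀.2 := by linarith
    have hpos : 0 < pr0 q₀.1 ^ 2 * ‖q₀.2 - ss (pu q₀.1) q₀.2 • pu q₀.1‖ ^ 2 +
        ss (pu q₀.1) q₀.2 ^ 2 := by positivity
    have hmo : ContDiffAt ℝ (⊤ : ℕ∞)
        (fun q : (Fin (n + 1) → ℝ) × EE n => mo (pr0 q.1) (pu q.1) q.2) q₀ := by
      unfold mo
      exact hm.contDiffAt.sqrt hpos.ne'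
    have hmo0 : 0 < mo (pr0 q₀.1) (pu q₀.1) q₀.2 := Real.sqrt_pos.2 hpos
    unfold Ps
    refine ((contDiffAt_const.sub ?_).mul ?_).mul ?_
    · exact (contDiff_eta0.comp (contDiff_const.mul hs)).contDiffAt
    · exact hψ.contDiffAt.comp q₀ hmo
    · refine contDiff_eta0.contDiffAt.comp q₀ ?_
      refine (contDiff_const.mul hq).contDiffAt.div (hmo.mul (hmo.add hs.contDiffAt)) ?_
      positivity

/-- the support -/
theorem Ps_support {n : ℕ} {ψ : ℝ → ℝ} (hψ : RC ψ) {r : ℝ} {u η : EE n} (hu : ‖u‖ < 2)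
    (hη : 40 < ‖η‖) : Ps ψ r u η = 0 := by
  by_contra hne
  have h1 : 1 - eta0 (32 * ss u η) ≠ 0 := fun h => hne (by simp only [Ps, h, zero_mul])
  have h2 : ψ (mo r u η) ≠ 0 := fun h => hne (by simp only [Ps, h, mul_zero, zero_mul])
  have h3 : eta0 (2 * ‖η - ss u η • u‖ ^ 2 / (mo r u η * (mo r u η + ss u η))) ≠ 0 :=
    fun h => hne (by simp only [Ps, h, mul_zero])
  obtain ⟨h4, h5⟩ := hψ.2 _ h2
  have h6 : 1 / 32 < ss u η := by
    by_contra h
    apply h1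
    have : eta0 (32 * ss u η) = 1 := by
      apply Real.smoothTransition.one_of_one_le
      linarith
    rw [this, sub_self]
  have h7 : 2 * ‖η - ss u η • u‖ ^ 2 / (mo r u η * (mo r u η + ss u η)) < 2 := by
    by_contra h
    apply h3
    exact Real.smoothTransition.zero_of_nonpos (by linarith [not_lt.1 h])
  have h8 : ss u η ≤ mo r u η := by
    unfold mo
    apply Real.le_sqrt_of_sq_le
    have : 0 ≤ r ^ 2 * ‖η - ss u η • u‖ ^ 2 := by positivity
    linarith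
  have h9 : 0 < mo r u η * (mo r u η + ss u η) := by
    have : 0 < mo r u η := by linarith
    have h' : 0 < ss u η := by linarith
    positivity
  rw [div_lt_iff₀ h9] at h7
  have h10 : ‖η - ss u η • u‖ ^ 2 ≤ 128 := by nlinarith
  have h11 : ‖η - ss u η • u‖ ≤ 12 := by
    by_contra h
    nlinarith [norm_nonneg (η - ss u η • u)]
  have h12 : ‖η‖ ≤ ‖η - ss u η • u‖ + ‖ss u η • u‖ := by
    have := norm_add_le (η - ss u η • u) (ss u η • u)
    rwa [sub_add_cancel] at this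
  have h13 : ‖ss u η • u‖ ≤ 16 := by
    rw [norm_smul, Real.norm_eq_abs, abs_of_pos (by linarith)]
    nlinarith [norm_nonneg u]
  linarith

/-! ### the two symbols agree -/

section

variable {n : ℕ} {r : ℝ} {u : EE n}

theorem w_eq (η : EE n) : r • η + ((1 - r) * inner ℝ u η) • u =
    r • (η - ss u η • u) + ss u η • u := by
  unfold ss
  rw [smul_sub, smul_smul, sub_mul, one_mul, sub_smul]
  abel

theorem norm_w (hr : 0 < r) (hu : ‖u‖ = 1) (η : EE n) :
    ‖r • (η - ss u η • u) + ss u η • u‖ = mo r u η := by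
  have h0 : inner ℝ (η - ss u η • u) u = 0 := by
    rw [inner_sub_left, real_inner_smul_left, real_inner_self_eq_norm_sq, hu, real_inner_comm]
    unfold ss
    ring
  have h1 : inner ℝ (r • (η - ss u η • u)) (ss u η • u) = 0 := by
    rw [real_inner_smul_left, real_inner_smul_right, h0]
    ring
  have h2 := norm_add_sq_eq_norm_sq_add_norm_sq_real h1
  unfold mo
  symm
  rw [Real.sqrt_eq_iff_mul_self_eq (by positivity) (norm_nonneg _), h2, norm_smul, norm_smul, hu,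
    Real.norm_eq_abs, Real.norm_eq_abs, abs_of_pos hr, mul_one, abs_mul_abs_self]
  ring

theorem inner_w (hu : ‖u‖ = 1) (η : EE n) :
    inner ℝ u (r • (η - ss u η • u) + ss u η • u) = ss u η := by
  have h3 : inner ℝ u u = (1 : ℝ) := by
    rw [real_inner_self_eq_norm_sq, hu]
    norm_num
  rw [inner_add_right, real_inner_smul_right, inner_sub_right, real_inner_smul_right, h3]
  unfold ss
  ring

theorem sy_DL {ψ : ℝ → ℝ} (hψ : RC ψ) {Lam : ℝ} (hL : 0 < Lam) (hr : 0 < r) (hr8 : r ≤ 1 / 8)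
    (hu : ‖u‖ = 1) (η : EE n) :
    sy n ψ Lam r u (DL Lam r u η) = ((Ps ψ r u η : ℝ) : ℂ) := by
  set w : EE n := r • (η - ss u η • u) + ss u η • u with hw
  have hD : DL Lam r u η = Lam • w := by
    rw [DL_apply hr.ne', w_eq]
  have hnw : ‖w‖ = mo r u η := norm_w hr hu η
  have hmo0 : 0 ≤ mo r u η := Real.sqrt_nonneg _
  have hn : ‖Lam • w‖ = Lam * mo r u η := by
    rw [norm_smul, Real.norm_eq_abs, abs_of_pos hL, hnw]
  unfold sy
  rw [hD, hn]
  have e1 : Lam * mo r u η / Lam = mo r u η := by field_simp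
  rw [e1]
  congr 1
  by_cases hz : ψ (mo r u η) = 0
  · rw [hz, zero_mul]
    simp only [Ps, hz, mul_zero, zero_mul]
  obtain ⟨h4, h5⟩ := hψ.2 _ hz
  have hmo : 0 < mo r u η := by linarith
  have e2 : (Lam * mo r u η)⁻¹ • Lam • w = (mo r u η)⁻¹ • w := by
    rw [smul_smul]
    congr 1
    field_simp
  rw [e2]
  have hsq : mo r u η ^ 2 = r ^ 2 * ‖η - ss u η • u‖ ^ 2 + ss u η ^ 2 := by
    unfold mo
    rw [Real.sq_sqrt (by positivity)]
  have e3 : ‖(mo r u η)⁻¹ • w - u‖ ^ 2 = 2 * (mo r u η - ss u η) / mo r u η := by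
    rw [norm_sub_sq_real, norm_smul, real_inner_smul_left, real_inner_comm, inner_w hu η, hnw, hu,
      Real.norm_eq_abs, abs_of_pos (inv_pos.2 hmo)]
    field_simp
    ring
  have e4 : (‖(mo r u η)⁻¹ • w - u‖ / r) ^ 2 =
      2 * (mo r u η - ss u η) / (mo r u η * r ^ 2) := by
    rw [div_pow, e3, div_div]
  rw [e4]
  -- small `s` gives a large argument
  have hbig : ss u η ≤ 1 / 16 → 2 ≤ 2 * (mo r u η - ss u η) / (mo r u η * r ^ 2) := by
    intro h
    rw [le_div_iff₀ (by positivity)]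
    have h1 : r ^ 2 ≤ 1 / 64 := by nlinarith
    nlinarith
  have hz0 : ss u η ≤ 1 / 16 → eta0 (2 * (mo r u η - ss u η) / (mo r u η * r ^ 2)) = 0 :=
    fun h => eta0_zero (hbig h)
  unfold Ps
  rcases le_or_gt (ss u η) (1 / 32) with h | h
  · have h1 : eta0 (32 * ss u η) = 1 := eta0_one (by linarith)
    rw [hz0 (by linarith), h1]
    ring
  · have hms : 0 < mo r u η + ss u η := by linarith
    have e5 : 2 * ‖η - ss u η • u‖ ^ 2 / (mo r u η * (mo r u η + ss u η)) =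
        2 * (mo r u η - ss u η) / (mo r u η * r ^ 2) := by
      rw [div_eq_div_iff (by positivity) (by positivity)]
      have e6 : r ^ 2 * ‖η - ss u η • u‖ ^ 2 = (mo r u η - ss u η) * (mo r u η + ss u η) := by
        linarith [hsq]
      calc 2 * ‖η - ss u η • u‖ ^ 2 * (mo r u η * r ^ 2) =
          2 * mo r u η * (r ^ 2 * ‖η - ss u η • u‖ ^ 2) := by ring
        _ = 2 * (mo r u η - ss u η) * (mo r u η * (mo r u η + ss u η)) := by
          rw [e6]
          ring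
    rw [e5]
    rcases le_or_gt (ss u η) (1 / 16) with h' | h'
    · rw [hz0 h']
      ring
    · have h1 : eta0 (32 * ss u η) = 0 := eta0_zero (by linarith)
      rw [h1]
      ring

theorem DL_symm {Lam : ℝ} (hr : r ≠ 0) (x η : EE n) :
    inner ℝ x (DL Lam r u η) = inner ℝ (DL Lam r u x) η := by
  rw [DL_apply hr, DL_apply hr]
  simp only [real_inner_smul_left, real_inner_smul_right, inner_add_left, inner_add_right]
  rw [real_inner_comm x u]
  ring

theorem MK_sy (hn : 1 ≤ n) {ψ : ℝ → ℝ} (hψ : RC ψ) {Lam : ℝ} (hL : 0 < Lam) (hr : 0 < r)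
    (hr8 : r ≤ 1 / 8) (hu : ‖u‖ = 1) (x : EE n) :
    MK (sy n ψ Lam r u) x = ((Lam ^ n * r ^ (n - 1) : ℝ) : ℂ) *
      MK (fun η => ((Ps ψ r u η : ℝ) : ℂ)) (DL Lam r u x) := by
  unfold MK
  rw [DL_integral hn hL hr hu]
  congr 1
  refine integral_congr_ae (Filter.Eventually.of_forall fun η => ?_)
  simp only
  rw [sy_DL hψ hL hr hr8 hu η, DL_symm hr.ne']

end

/-! ### conclusion -/

/-- the parameter vector -/
noncomputable def pc {n : ℕ} (q : ℝ × EE n) : Fin (n + 1) → ℝ :=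
  Fin.cons q.1 (fun i => q.2 i)

theorem pc0 {n : ℕ} (q : ℝ × EE n) : pr0 (pc q) = q.1 := rfl

theorem pcu {n : ℕ} (q : ℝ × EE n) : pu (pc q) = q.2 := by
  ext i
  simp [pu, pc]

theorem continuous_pc {n : ℕ} : Continuous (pc : ℝ × EE n → (Fin (n + 1) → ℝ)) := by
  refine continuous_pi fun i => ?_
  refine Fin.cases ?_ (fun j => ?_) i
  · exact continuous_fst
  · simp only [pc, Fin.cons_succ]
    fun_prop

theorem pf_sec (hKBV : T_KBV) (_hSPL : T_SPL) : T_SEC := by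
  intro n N ψ hn hψ
  obtain ⟨C, hC⟩ := hKBV n (n + 1) (pc '' (Icc (0 : ℝ) (1 / 8) ×ˢ Metric.sphere (0 : EE n) 1))
    {p | ‖pu (n := n) p‖ < 2}
    (fun q => ((Ps ψ (pr0 q.1) (pu q.1) q.2 : ℝ) : ℂ)) 40
    ((isCompact_Icc.prod (isCompact_sphere _ _)).image continuous_pc)
    (isOpen_lt (contDiff_pu.continuous.norm) continuous_const)
    (by
      rintro _ ⟨⟨r, u⟩, ⟨-, hu⟩, rfl⟩
      show ‖pu (pc (r, u))‖ < 2
      rw [pcu, mem_sphere_zero_iff_norm.1 hu]
      norm_num)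
    (Complex.ofRealCLM.contDiff.comp (contDiff_Ps hψ.1)).contDiffOn
    (by
      intro p hp η hη
      simp only
      rw [Ps_support hψ hp hη, Complex.ofReal_zero])
    (2 * N)
  refine ⟨max C 0, le_max_right _ _, ?_⟩
  intro Lam r u x hL hr hr8 hu
  have h1 := hC (pc (r, u)) ⟨(r, u), ⟨⟨hr.le, hr8⟩, mem_sphere_zero_iff_norm.2 hu⟩, rfl⟩
    (DL Lam r u x)
  simp only [pc0, pcu] at h1
  rw [MK_sy hn hψ hL hr hr8 hu x, norm_mul, Complex.norm_real, Real.norm_eq_abs,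
    abs_of_pos (by positivity)]
  have hs : inner ℝ x u = ss u x := by
    unfold ss
    exact real_inner_comm _ _
  rw [hs]
  set A : ℝ := 1 + Lam * |ss u x| with hA
  set B : ℝ := 1 + Lam * r * ‖x - ss u x • u‖ with hB
  have hA1 : 1 ≤ A := by
    have : 0 ≤ Lam * |ss u x| := by positivity
    linarith
  have hB1 : 1 ≤ B := by
    have : 0 ≤ Lam * r * ‖x - ss u x • u‖ := by positivity
    linarith
  have hnorm : ‖DL Lam r u x‖ = Lam * mo r u x := by
    rw [DL_apply hr.ne', w_eq, norm_smul, norm_w hr hu, Real.norm_eq_abs, abs_of_pos hL]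
  have hmA : |ss u x| ≤ mo r u x := by
    unfold mo
    rw [← Real.sqrt_sq_eq_abs]
    apply Real.sqrt_le_sqrt
    have : 0 ≤ r ^ 2 * ‖x - ss u x • u‖ ^ 2 := by positivity
    linarith
  have hmB : r * ‖x - ss u x • u‖ ≤ mo r u x := by
    unfold mo
    apply Real.le_sqrt_of_sq_le
    have : 0 ≤ ss u x ^ 2 := sq_nonneg _
    rw [mul_pow]
    linarith
  have hAD : A ≤ 1 + ‖DL Lam r u x‖ := by
    rw [hnorm, hA]
    have := mul_le_mul_of_nonneg_left hmA hL.le
    linarith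
  have hBD : B ≤ 1 + ‖DL Lam r u x‖ := by
    rw [hnorm, hB]
    have := mul_le_mul_of_nonneg_left hmB hL.le
    linarith
  have hAB : A ^ N * B ^ N ≤ (1 + ‖DL Lam r u x‖) ^ (2 * N) := by
    rw [two_mul, pow_add]
    exact mul_le_mul (pow_le_pow_left₀ (by linarith) hAD N) (pow_le_pow_left₀ (by linarith) hBD N)
      (by positivity) (by positivity)
  set m : ℝ := ‖MK (fun η => ((Ps ψ r u η : ℝ) : ℂ)) (DL Lam r u x)‖ with hm
  have hm0 : 0 ≤ m := norm_nonneg _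
  have h2 : m * (A ^ N * B ^ N) ≤ max C 0 :=
    (mul_le_mul_of_nonneg_left hAB hm0).trans (h1.trans (le_max_left _ _))
  have hAN : 0 < A ^ N := by positivity
  have hBN : 0 < B ^ N := by positivity
  have h3 : m ≤ max C 0 * (A ^ N)⁻¹ * (B ^ N)⁻¹ := by
    rw [mul_assoc, ← mul_inv, ← div_eq_mul_inv, le_div_iff₀ (by positivity)]
    exact h2
  calc Lam ^ n * r ^ (n - 1) * m ≤
      Lam ^ n * r ^ (n - 1) * (max C 0 * (A ^ N)⁻¹ * (B ^ N)⁻¹) :=
        mul_le_mul_of_nonneg_left h3 (by positivity)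
    _ = max C 0 * Lam ^ n * r ^ (n - 1) * (A ^ N)⁻¹ * (B ^ N)⁻¹ := by ring

end Pool.Agent.H50.TN
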